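import Pool.Agent.H97.Q2.Log

/-!
# Many empty subcubes in the `Q_2`-free process

The expected number of empty copies of `Q_k` in the final graph of the random greedy `Q_2`-free
process on the hypercube `Q_d` is exponentially large as soon as `k 2^k ≤ d / 3`; in particular it
tends to infinity for `k = ⌊c log₂ d⌋`, for every `c < 1`.
-/

open Filter Topology
open Pool.Agent.H97.Q2

namespace Pool.Agent.Results.MP_fb8df7_pr.EmptyCubes

theorem result :
    (∀ᶠ d : ℕ in atTop, ∀ k : ℕ,
      (k : ℝ) * 2 ^ k ≤ d / 3 → Real.exp (d / 10) ≤ expectedEmpty d k) ∧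
    (∀ c : ℝ, 0 ≤ c → c < 1 →
      Tendsto (fun d : ℕ => expectedEmpty d ⌊c * Real.logb 2 d⌋₊) atTop atTop) :=
  ⟨lower_main, fun _ h0 h1 => tendsto_atTop_of_lt_one h0 h1⟩

end Pool.Agent.Results.MP_fb8df7_pr.EmptyCubes
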