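import Pool.Agent.H97.Q2.Log

/-!
# No empty subcubes of dimension `(4/3) log₂ d` in the `Q_2`-free process

The expected number of empty copies of `Q_k` in the final graph of the random greedy `Q_2`-free
process on the hypercube `Q_d` is exponentially small as soon as `k 2^k ≥ 16 d^(4/3)`; in
particular it tends to zero for `k = ⌊c log₂ d⌋`, for every `c ≥ 4/3`.
-/

open Filter Topology
open Pool.Agent.H97.Q2

namespace Pool.Agent.Results.MP_fb8df7_pr.NoEmptyCubes

theorem result :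
    (∀ᶠ d : ℕ in atTop, ∀ k : ℕ,
      16 * (d : ℝ) ^ (4 / 3 : ℝ) ≤ k * 2 ^ k → expectedEmpty d k ≤ Real.exp (-(d / 2))) ∧
    (∀ c : ℝ, 4 / 3 ≤ c →
      Tendsto (fun d : ℕ => expectedEmpty d ⌊c * Real.logb 2 d⌋₊) atTop (𝓝 0)) :=
  ⟨upper_main, fun _ h => tendsto_zero_of_ge h⟩

end Pool.Agent.Results.MP_fb8df7_pr.NoEmptyCubes
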